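import Pool.Agent.Q282.HL.Count

/-!
# Asymptotics for the number of the tuples whose product is a square
-/

set_option autoImplicit false
set_option linter.unusedSectionVars false

namespace Q282.HL

open Polynomial Finset
open Pool.Agent.H341R2.Sharp

open Classical in
/-- the multigraphs with given degrees -/
noncomputable def GR {m : ℕ} (i : Fin m → ℕ) : Finset (Edge m → ℕ) :=
  (Fintype.piFinset fun _ => range (∑ j, i j + 1)).filter fun n => ∀ j, ∑ s, n s * mult j s = i j

lemma sum_of_degrees {m : ℕ} {i : Fin m → ℕ} {n : Edge m → ℕ} (h : ∀ j, ∑ s, n s * mult j s = i j) :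
    ∑ j, i j = 2 * ∑ s, n s := by
  rw [← sum_congr rfl fun j _ => h j, sum_comm, mul_sum]
  refine sum_congr rfl fun s _ => ?_
  rw [← mul_sum, sum_mult, mul_comm]

lemma mem_GR {m : ℕ} {i : Fin m → ℕ} {n : Edge m → ℕ} :
    n ∈ GR i ↔ ∀ j, ∑ s, n s * mult j s = i j := by
  classical
  unfold GR
  rw [mem_filter, Fintype.mem_piFinset]
  constructor
  · exact fun h => h.2
  · intro h
    refine ⟨fun s => ?_, h⟩
    rw [mem_range]
    have h1 := sum_of_degrees h
    have h2 : n s ≤ ∑ s, n s := single_le_sum (fun _ _ => Nat.zero_le _) (mem_univ s)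
    omega

section

variable {K : Type} [Field K] [Fintype K] [DecidableEq K] {m : ℕ}

open Classical in
/-- the number of the tuples of monic polynomials of degrees `i j` whose product is a square -/
noncomputable def Nsq (K : Type) [Field K] [Fintype K] [DecidableEq K] {m : ℕ} (i : Fin m → ℕ) : ℕ :=
  ((Fintype.piFinset fun j => Mon K (i j)).filter fun h => IsSquare (∏ j, h j)).card

lemma Nsq_upper (i : Fin m → ℕ) : (Nsq K i : ℝ) ≤ ∑ n ∈ GR i, (Fintype.card K : ℝ) ^ ∑ s, n s := by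
  classical
  have hsub : (Fintype.piFinset fun j => Mon K (i j)).filter (fun h => IsSquare (∏ j, h j)) ⊆
      ((GR i).biUnion fun n => (ET n : Finset (Edge m → K[X]))).image Phi := by
    intro h hh
    rw [mem_filter, Fintype.mem_piFinset] at hh
    obtain ⟨h1, h2⟩ := hh
    have h3 : ∀ j, (h j).Monic ∧ (h j).natDegree = i j := fun j => mem_Mon.1 (h1 j)
    obtain ⟨d, hd1, hd2⟩ := exists_edge _ h (fun j => (h3 j).1) le_rfl h2
    rw [mem_image]
    refine ⟨d, ?_, funext hd2⟩
    rw [mem_biUnion]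
    refine ⟨fun s => (d s).natDegree, ?_, mem_ET.2 fun s => ⟨hd1 s, rfl⟩⟩
    rw [mem_GR]
    intro j
    rw [← Phi_natDegree hd1, hd2, (h3 j).2]
  have h1 := (card_le_card hsub).trans (card_image_le.trans card_biUnion_le)
  have h2 : (Nsq K i : ℝ) ≤ ∑ n ∈ GR i, ((ET n : Finset (Edge m → K[X])).card : ℝ) := by
    unfold Nsq
    exact_mod_cast h1
  simp only [card_ET] at h2
  exact h2

open Classical in
lemma Nsq_lower (i : Fin m → ℕ) :
    ∑ n ∈ GR i, (((ET n : Finset (Edge m → K[X])).filter fun d => Squarefree (∏ s, d s)).card : ℝ) ≤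
      Nsq K i := by
  have h1 : ((GR i).biUnion fun n => (ET n : Finset (Edge m → K[X])).filter fun d =>
      Squarefree (∏ s, d s)).card = ∑ n ∈ GR i,
      ((ET n : Finset (Edge m → K[X])).filter fun d => Squarefree (∏ s, d s)).card := by
    refine card_biUnion ?_
    intro n _ n' _ hne
    show Disjoint _ _
    rw [disjoint_left]
    intro d hd hd'
    apply hne
    funext s
    rw [← (mem_ET.1 (mem_filter.1 hd).1 s).2, ← (mem_ET.1 (mem_filter.1 hd').1 s).2]
  have h2 : ((GR i).biUnion fun n => (ET n : Finset (Edge m → K[X])).filter fun d =>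
      Squarefree (∏ s, d s)).card ≤ Nsq K i := by
    unfold Nsq
    refine card_le_card_of_injOn Phi ?_ ?_
    · intro d hd
      rw [mem_coe, mem_biUnion] at hd
      obtain ⟨n, hn, hd⟩ := hd
      rw [mem_filter] at hd
      have hdm := mem_ET.1 hd.1
      rw [mem_coe, mem_filter, Fintype.mem_piFinset]
      refine ⟨fun j => mem_Mon.2 ⟨Phi_monic (fun s => (hdm s).1) j, ?_⟩, ?_⟩
      · rw [Phi_natDegree (fun s => (hdm s).1), ← mem_GR.1 hn j]
        exact sum_congr rfl fun s _ => by rw [(hdm s).2]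
      · rw [prod_Phi]
        exact ⟨∏ s, d s, sq _⟩
    · intro d hd d' hd' hdd
      rw [mem_coe, mem_biUnion] at hd hd'
      obtain ⟨n, _, hd⟩ := hd
      obtain ⟨n', _, hd'⟩ := hd'
      rw [mem_filter] at hd hd'
      exact Phi_inj (fun s => (mem_ET.1 hd.1 s).1) (fun s => (mem_ET.1 hd'.1 s).1) hd.2
        fun j => congrFun hdd j
  rw [h1] at h2
  exact_mod_cast h2

/-- the asymptotic formula -/
theorem Nsq_asym (i : Fin m → ℕ) :
    |(Nsq K i : ℝ) / (Real.sqrt (Fintype.card K)) ^ (∑ j, i j) - (GR i).card| ≤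
      ((GR i).card * ((Fintype.card (Edge m) : ℝ) ^ 2 * (∑ j, i j : ℕ))) / Fintype.card K := by
  classical
  have hq1 : (1 : ℝ) ≤ Fintype.card K := by exact_mod_cast Fintype.card_pos
  have hq0 : (0 : ℝ) < Fintype.card K := by linarith
  have hr0 : 0 < Real.sqrt (Fintype.card K) := Real.sqrt_pos.2 hq0
  set q : ℝ := (Fintype.card K : ℝ) with hq
  set I : ℕ := ∑ j, i j with hI
  have hpow : ∀ n ∈ GR i, q ^ (∑ s, n s) = (Real.sqrt q) ^ I := by
    intro n hn
    rw [hI, sum_of_degrees (mem_GR.1 hn), pow_mul, Real.sq_sqrt hq0.le]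
  have hle : ∀ n ∈ GR i, (∑ s, n s : ℕ) ≤ I := by
    intro n hn
    rw [hI, sum_of_degrees (mem_GR.1 hn)]
    omega
  have hup : (Nsq K i : ℝ) ≤ (GR i).card * (Real.sqrt q) ^ I := by
    refine (Nsq_upper i).trans (le_of_eq ?_)
    rw [sum_congr rfl hpow, sum_const, nsmul_eq_mul]
  have hlow : (GR i).card * (Real.sqrt q) ^ I -
      (GR i).card * ((Fintype.card (Edge m) : ℝ) ^ 2 * I * ((Real.sqrt q) ^ I / q)) ≤ Nsq K i := by
    refine le_trans ?_ (Nsq_lower i)
    have h1 : ∀ n ∈ GR i, (Real.sqrt q) ^ I - (Fintype.card (Edge m) : ℝ) ^ 2 * I * ((Real.sqrt q) ^ I / q) ≤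
        (((ET n : Finset (Edge m → K[X])).filter fun d => Squarefree (∏ s, d s)).card : ℝ) := by
      intro n hn
      have h2 := card_not_sf (K := K) n
      have h3 := card_ET (K := K) n
      have h4 : (((ET n : Finset (Edge m → K[X])).filter fun d => Squarefree (∏ s, d s)).card : ℝ) +
          (((ET n : Finset (Edge m → K[X])).filter fun d => ¬ Squarefree (∏ s, d s)).card : ℝ) =
          ((ET n : Finset (Edge m → K[X])).card : ℝ) := by
        exact_mod_cast card_filter_add_card_filter_not (s := (ET n : Finset (Edge m → K[X])))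
          (fun d => Squarefree (∏ s, d s))
      rw [← hq, hpow n hn] at h2 h3
      have h5 : (Fintype.card (Edge m) : ℝ) ^ 2 * (∑ s, n s : ℕ) * ((Real.sqrt q) ^ I / q) ≤
          (Fintype.card (Edge m) : ℝ) ^ 2 * I * ((Real.sqrt q) ^ I / q) := by
        refine mul_le_mul_of_nonneg_right (mul_le_mul_of_nonneg_left ?_ (by positivity)) (by positivity)
        exact_mod_cast hle n hn
      linarith
    have h2 := sum_le_sum h1
    rw [sum_const, nsmul_eq_mul, mul_sub] at h2
    exact h2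
  have hR : 0 < (Real.sqrt q) ^ I := by positivity
  rw [abs_le]
  constructor
  · have h1 : ((GR i).card : ℝ) - ((GR i).card * ((Fintype.card (Edge m) : ℝ) ^ 2 * I)) / q ≤
        (Nsq K i : ℝ) / (Real.sqrt q) ^ I := by
      rw [le_div_iff₀ hR]
      refine le_trans (le_of_eq ?_) hlow
      field_simp
    linarith
  · have h1 : (Nsq K i : ℝ) / (Real.sqrt q) ^ I ≤ (GR i).card := by
      rw [div_le_iff₀ hR]
      exact hup
    have h2 : 0 ≤ ((GR i).card * ((Fintype.card (Edge m) : ℝ) ^ 2 * I)) / q := by positivity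
    linarith

lemma lam_prod_univ (f : K[X]) (h : Fin m → K[X]) (hm : ∀ j, (h j).Monic) :
    lam f (∏ j, h j) = ∏ j, lam f (h j) := by
  classical
  have key : ∀ s : Finset (Fin m), lam f (∏ j ∈ s, h j) = ∏ j ∈ s, lam f (h j) := by
    intro s
    induction s using Finset.induction_on with
    | empty => simp [lam_one]
    | insert a s ha ih =>
      rw [prod_insert ha, prod_insert ha, lam_mul _ _ _ (hm a) (monic_prod_of_monic _ _ fun j _ => hm j), ih]
  exact key univ

/-- the mean of a product of the coefficients of the `L`-polynomial -/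
theorem mean_prod_A (hK : ringChar K ≠ 2) (D : ℕ) (i : Fin m → ℕ) (hi : ∑ j, i j ≤ D) :
    |(∑ u : Fin D → K, ∏ j, ((A (mpol D u) (i j) : ℝ) / (Real.sqrt (Fintype.card K)) ^ i j)) /
        (Fintype.card K : ℝ) ^ D - (GR i).card| ≤
      ((GR i).card * ((Fintype.card (Edge m) : ℝ) ^ 2 * (∑ j, i j : ℕ)) + (GR i).card * D) / Fintype.card K := by
  classical
  have hq1 : (1 : ℝ) ≤ Fintype.card K := by exact_mod_cast Fintype.card_pos
  have hq0 : (0 : ℝ) < Fintype.card K := by linarith
  have hr0 : 0 < Real.sqrt (Fintype.card K) := Real.sqrt_pos.2 hq0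
  have hR : 0 < (Real.sqrt (Fintype.card K)) ^ (∑ j, i j) := by positivity
  set TS := Fintype.piFinset fun j => Mon K (i j) with hTS
  have h1 : ∀ u : Fin D → K, ∏ j, ((A (mpol D u) (i j) : ℝ) / (Real.sqrt (Fintype.card K)) ^ i j) =
      (∑ h ∈ TS, (lam (mpol D u) (∏ j, h j) : ℝ)) / (Real.sqrt (Fintype.card K)) ^ (∑ j, i j) := by
    intro u
    rw [prod_div_distrib, prod_pow_eq_pow_sum]
    congr 1
    have h2 : ∀ j, (A (mpol D u) (i j) : ℝ) = ∑ h ∈ Mon K (i j), (lam (mpol D u) h : ℝ) := by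
      intro j
      unfold A
      push_cast
      rfl
    rw [prod_congr rfl fun j _ => h2 j, prod_univ_sum]
    refine sum_congr rfl fun h hh => ?_
    rw [Fintype.mem_piFinset] at hh
    have h3 := lam_prod_univ (mpol D u) h fun j => (mem_Mon.1 (hh j)).1
    rw [h3]
    push_cast
    rfl
  have h2 : (∑ u : Fin D → K, ∏ j, ((A (mpol D u) (i j) : ℝ) / (Real.sqrt (Fintype.card K)) ^ i j)) /
        (Fintype.card K : ℝ) ^ D = (∑ h ∈ TS, ml D (∏ j, h j)) / (Real.sqrt (Fintype.card K)) ^ (∑ j, i j) := by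
    rw [sum_congr rfl fun u _ => h1 u, ← sum_div, sum_comm, div_right_comm]
    congr 1
    rw [sum_div]
    rfl
  have hTm : ∀ h ∈ TS, (∏ j, h j).Monic ∧ (∏ j, h j).natDegree ≤ D := by
    intro h hh
    rw [hTS, Fintype.mem_piFinset] at hh
    have h3 : ∀ j, (h j).Monic ∧ (h j).natDegree = i j := fun j => mem_Mon.1 (hh j)
    refine ⟨monic_prod_of_monic _ _ fun j _ => (h3 j).1, ?_⟩
    rw [natDegree_prod_of_monic _ _ fun j _ => (h3 j).1, sum_congr rfl fun j _ => (h3 j).2]
    exact hi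
  have h3 : ∑ h ∈ TS, ml D (∏ j, h j) = ∑ h ∈ TS.filter (fun h => IsSquare (∏ j, h j)), ml D (∏ j, h j) := by
    rw [sum_filter]
    refine sum_congr rfl fun h hh => ?_
    split_ifs with hs
    · rfl
    · exact ml_nsq hK (hTm h hh).1 (hTm h hh).2 hs
  have hN : (Nsq K i : ℝ) = ∑ h ∈ TS.filter (fun h => IsSquare (∏ j, h j)), (1 : ℝ) := by
    rw [sum_const, nsmul_eq_mul, mul_one]
    rfl
  have h4 : ∑ h ∈ TS, ml D (∏ j, h j) ≤ Nsq K i := by
    rw [h3, hN]
    refine sum_le_sum fun h hh => ?_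
    rw [mem_filter] at hh
    exact (ml_sq hK (hTm h hh.1).1 (hTm h hh.1).2 hh.2).1
  have h5 : (Nsq K i : ℝ) - Nsq K i * (D / Fintype.card K) ≤ ∑ h ∈ TS, ml D (∏ j, h j) := by
    have e : (Nsq K i : ℝ) - Nsq K i * (D / Fintype.card K) =
        ∑ h ∈ TS.filter (fun h => IsSquare (∏ j, h j)), (1 - (D : ℝ) / Fintype.card K) := by
      rw [sum_const, nsmul_eq_mul]
      show _ = (Nsq K i : ℝ) * _
      ring
    rw [h3, e]
    refine sum_le_sum fun h hh => ?_
    rw [mem_filter] at hh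
    exact (ml_sq hK (hTm h hh.1).1 (hTm h hh.1).2 hh.2).2
  have h6 := abs_le.1 (Nsq_asym (K := K) i)
  have hup : (Nsq K i : ℝ) / (Real.sqrt (Fintype.card K)) ^ (∑ j, i j) ≤ (GR i).card := by
    rw [div_le_iff₀ hR]
    refine (Nsq_upper i).trans (le_of_eq ?_)
    rw [sum_congr rfl fun n hn => ?_, sum_const, nsmul_eq_mul]
    rw [sum_of_degrees (mem_GR.1 hn), pow_mul, Real.sq_sqrt hq0.le]
  rw [h2, add_div, abs_le]
  have h7 : (∑ h ∈ TS, ml D (∏ j, h j)) / (Real.sqrt (Fintype.card K)) ^ (∑ j, i j) ≤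
      (Nsq K i : ℝ) / (Real.sqrt (Fintype.card K)) ^ (∑ j, i j) := div_le_div_of_nonneg_right h4 hR.le
  have h8 : (Nsq K i : ℝ) / (Real.sqrt (Fintype.card K)) ^ (∑ j, i j) - (GR i).card * D / Fintype.card K ≤
      (∑ h ∈ TS, ml D (∏ j, h j)) / (Real.sqrt (Fintype.card K)) ^ (∑ j, i j) := by
    have h9 := div_le_div_of_nonneg_right h5 hR.le
    rw [sub_div] at h9
    have h10 : (Nsq K i : ℝ) * (D / Fintype.card K) / (Real.sqrt (Fintype.card K)) ^ (∑ j, i j) ≤
        (GR i).card * D / Fintype.card K := by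
      rw [mul_div_right_comm, mul_div_assoc]
      exact mul_le_mul_of_nonneg_right hup (by positivity)
    linarith
  have h11 : 0 ≤ (GR i).card * (D : ℝ) / Fintype.card K := by positivity
  constructor
  · linarith [h6.1]
  · linarith [h6.2]

end

end Q282.HL
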