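import Pool.Agent.Q282.HL.Fact

/-!
# The number of the tuples of monic polynomials whose product is a square
-/

set_option autoImplicit false
set_option linter.unusedSectionVars false

namespace Q282.HL

open Polynomial Finset
open Pool.Agent.H341R2.Sharp

section

variable {K : Type} [Field K] [Fintype K] [DecidableEq K] {m : ℕ}

lemma card_Mon (n : ℕ) : (Mon K n).card = Fintype.card K ^ n := by
  classical
  have h1 : (univ : Finset (Fin n → K)).card = Fintype.card K ^ n := by
    rw [card_univ, Fintype.card_pi_const]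
  rw [← h1]
  symm
  refine card_bij (fun u _ => mpol n u) (fun u _ => mem_Mon.2 ⟨mpol_monic n u, mpol_natDegree n u⟩) ?_ ?_
  · intro u _ v _ huv
    unfold mpol at huv
    have h2 : low n u = low n v := add_left_cancel huv
    funext i
    have h3 := congrArg (fun f => f.coeff (i : ℕ)) h2
    unfold low at h3
    simp only [finsetSum_coeff, coeff_C_mul_X_pow] at h3
    rw [sum_eq_single i, sum_eq_single i] at h3
    · simpa using h3
    · intro j _ hj
      rw [if_neg]
      exact fun h => hj (Fin.ext h.symm)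
    · intro h
      exact absurd (mem_univ i) h
    · intro j _ hj
      rw [if_neg]
      exact fun h => hj (Fin.ext h.symm)
    · intro h
      exact absurd (mem_univ i) h
  · intro f hf
    rw [mem_Mon] at hf
    have h2 : (f - X ^ n).degree < (n : WithBot ℕ) := by
      have h3 : (f - X ^ n).degree < f.degree := by
        refine degree_sub_lt_left ?_ hf.1.ne_zero ?_
        · rw [degree_X_pow, degree_eq_natDegree hf.1.ne_zero, hf.2]
        · rw [hf.1.leadingCoeff, leadingCoeff_X_pow]
      rwa [degree_eq_natDegree hf.1.ne_zero, hf.2] at h3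
    obtain ⟨u, hu⟩ := exists_low h2
    refine ⟨u, mem_univ u, ?_⟩
    unfold mpol
    rw [hu]
    ring

open Classical in
lemma card_dvd (n : ℕ) {G : K[X]} (hG : G.Monic) :
    (((Mon K n).filter fun f => G ∣ f).card : ℝ) ≤
      (Fintype.card K : ℝ) ^ n / (Fintype.card K : ℝ) ^ G.natDegree := by
  have hq0 : (0 : ℝ) < Fintype.card K := by exact_mod_cast Fintype.card_pos
  by_cases hn : G.natDegree ≤ n
  · have h1 : ((Mon K n).filter fun f => G ∣ f).card ≤ (Mon K (n - G.natDegree)).card := by
      refine card_le_card_of_surjOn (fun a => G * a) ?_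
      intro f hf
      rw [mem_coe, mem_filter, mem_Mon] at hf
      obtain ⟨⟨h2, h3⟩, a, rfl⟩ := hf
      have ha : a.Monic := hG.of_mul_monic_left h2
      refine ⟨a, ?_, rfl⟩
      rw [mem_coe, mem_Mon]
      rw [hG.natDegree_mul ha] at h3
      exact ⟨ha, by omega⟩
    rw [card_Mon] at h1
    rw [le_div_iff₀ (by positivity)]
    have h2 : ((((Mon K n).filter fun f => G ∣ f).card : ℕ) : ℝ) ≤
        (Fintype.card K : ℝ) ^ (n - G.natDegree) := by exact_mod_cast h1
    calc _ ≤ (Fintype.card K : ℝ) ^ (n - G.natDegree) * (Fintype.card K : ℝ) ^ G.natDegree :=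
          mul_le_mul_of_nonneg_right h2 (by positivity)
      _ = (Fintype.card K : ℝ) ^ n := by
          rw [← pow_add]
          congr 1
          omega
  · have h1 : (Mon K n).filter (fun f => G ∣ f) = ∅ := by
      rw [filter_eq_empty_iff]
      intro f hf hd
      rw [mem_Mon] at hf
      have := natDegree_le_of_dvd hd hf.1.ne_zero
      omega
    rw [h1, card_empty, Nat.cast_zero]
    positivity

/-- the tuples on the edges with given degrees -/
noncomputable def ET (n : Edge m → ℕ) : Finset (Edge m → K[X]) := Fintype.piFinset fun s => Mon K (n s)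

lemma mem_ET {n : Edge m → ℕ} {d : Edge m → K[X]} :
    d ∈ (ET n : Finset (Edge m → K[X])) ↔ ∀ s, (d s).Monic ∧ (d s).natDegree = n s := by
  unfold ET
  rw [Fintype.mem_piFinset]
  simp only [mem_Mon]

lemma card_ET (n : Edge m → ℕ) :
    ((ET n : Finset (Edge m → K[X])).card : ℝ) = (Fintype.card K : ℝ) ^ ∑ s, n s := by
  unfold ET
  rw [Fintype.card_piFinset, ← prod_pow_eq_pow_sum]
  push_cast
  refine prod_congr rfl fun s _ => ?_
  rw [card_Mon]
  push_cast
  rfl

open Classical in
lemma card_ET_dvd (n : Edge m → ℕ) (G : Edge m → K[X]) (hG : ∀ s, (G s).Monic) :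
    (((ET n : Finset (Edge m → K[X])).filter fun d => ∀ s, G s ∣ d s).card : ℝ) ≤
      (Fintype.card K : ℝ) ^ (∑ s, n s) / (Fintype.card K : ℝ) ^ (∑ s, (G s).natDegree) := by
  have h1 : (ET n : Finset (Edge m → K[X])).filter (fun d => ∀ s, G s ∣ d s) =
      Fintype.piFinset fun s => (Mon K (n s)).filter fun f => G s ∣ f := by
    ext d
    rw [mem_filter, Fintype.mem_piFinset]
    unfold ET
    rw [Fintype.mem_piFinset]
    constructor
    · rintro ⟨h1, h2⟩ s
      exact mem_filter.2 ⟨h1 s, h2 s⟩
    · intro h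
      exact ⟨fun s => (mem_filter.1 (h s)).1, fun s => (mem_filter.1 (h s)).2⟩
  rw [h1, Fintype.card_piFinset, ← prod_pow_eq_pow_sum, ← prod_pow_eq_pow_sum, ← prod_div_distrib]
  push_cast
  exact prod_le_prod (fun s _ => Nat.cast_nonneg _) fun s _ => card_dvd (n s) (hG s)

open Classical in
/-- few tuples have a product which is not squarefree -/
lemma card_not_sf (n : Edge m → ℕ) :
    (((ET n : Finset (Edge m → K[X])).filter fun d => ¬ Squarefree (∏ s, d s)).card : ℝ) ≤
      (Fintype.card (Edge m) : ℝ) ^ 2 * (∑ s, n s : ℕ) * ((Fintype.card K : ℝ) ^ (∑ s, n s) / Fintype.card K) := by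
  have hq1 : (1 : ℝ) ≤ Fintype.card K := by exact_mod_cast Fintype.card_pos
  have hq0 : (0 : ℝ) < Fintype.card K := by linarith
  set N := ∑ s, n s with hN
  set I : Finset ((Edge m × Edge m) × ℕ) := univ ×ˢ Icc 1 N with hI
  set x : Edge m × Edge m → Edge m → ℕ := fun p r =>
    (if r = p.1 then 1 else 0) + if r = p.2 then 1 else 0 with hx
  have hxsum : ∀ p, ∑ r, x p r = 2 := by
    intro p
    simp only [hx]
    rw [sum_add_distrib]
    simp
  have hsub : (ET n : Finset (Edge m → K[X])).filter (fun d => ¬ Squarefree (∏ s, d s)) ⊆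
      I.biUnion fun a => (Mon K a.2).biUnion fun P =>
        (ET n : Finset (Edge m → K[X])).filter fun d => ∀ s, P ^ x a.1 s ∣ d s := by
    intro d hd
    rw [mem_filter] at hd
    obtain ⟨hd1, hd2⟩ := hd
    have hdm := mem_ET.1 hd1
    have hprodm : (∏ s, d s).Monic := monic_prod_of_monic _ _ fun s _ => (hdm s).1
    have hdegp : (∏ s, d s).natDegree = N := by
      rw [natDegree_prod_of_monic _ _ fun s _ => (hdm s).1, hN]
      exact sum_congr rfl fun s _ => (hdm s).2
    rw [squarefree_iff_irreducible_sq_not_dvd_of_ne_zero hprodm.ne_zero] at hd2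
    push Not at hd2
    obtain ⟨Q, hQ, hQd⟩ := hd2
    set P := normalize Q with hPdef
    have hPm : P.Monic := monic_normalize hQ.ne_zero
    have hass : Associated P Q := normalize_associated Q
    have hPirr : Irreducible P := hass.symm.irreducible hQ
    have hPp : Prime P := hPirr.prime
    have hPd : P * P ∣ ∏ s, d s := (hass.mul_mul hass).dvd.trans hQd
    have hdegP : 1 ≤ P.natDegree := hPirr.natDegree_pos
    have hdegP2 : P.natDegree ≤ N := by
      have h1 := natDegree_le_of_dvd hPd hprodm.ne_zero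
      rw [hPm.natDegree_mul hPm, hdegp] at h1
      omega
    obtain ⟨s, _, hs⟩ := (hPp.dvd_finsetProd_iff _).1 ((dvd_mul_right P P).trans hPd)
    obtain ⟨a, ha⟩ := hs
    have h2 : P ∣ a * ∏ t ∈ univ.erase s, d t := by
      have h3 : P * P ∣ P * (a * ∏ t ∈ univ.erase s, d t) := by
        rw [← mul_assoc, ← ha, mul_prod_erase _ _ (mem_univ s)]
        exact hPd
      exact (mul_dvd_mul_iff_left hPp.ne_zero).1 h3
    obtain ⟨t, ht⟩ : ∃ t, ∀ r, P ^ x (s, t) r ∣ d r := by
      rcases hPp.dvd_or_dvd h2 with h3 | h3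
      · refine ⟨s, fun r => ?_⟩
        simp only [hx]
        by_cases h4 : r = s
        · subst h4
          rw [if_pos rfl, ha, pow_succ, pow_one]
          exact mul_dvd_mul_left P h3
        · rw [if_neg h4, pow_zero]
          exact one_dvd _
      · obtain ⟨t, ht, hPt⟩ := (hPp.dvd_finsetProd_iff _).1 h3
        refine ⟨t, fun r => ?_⟩
        simp only [hx]
        have hts : t ≠ s := ne_of_mem_erase ht
        by_cases h4 : r = s
        · subst h4
          rw [if_pos rfl, if_neg (Ne.symm hts), pow_one, ha]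
          exact dvd_mul_right _ _
        · rw [if_neg h4]
          by_cases h5 : r = t
          · subst h5
            rw [if_pos rfl, zero_add, pow_one]
            exact hPt
          · rw [if_neg h5, pow_zero]
            exact one_dvd _
    rw [mem_biUnion]
    refine ⟨((s, t), P.natDegree), ?_, ?_⟩
    · rw [hI, mem_product, mem_Icc]
      exact ⟨mem_univ _, hdegP, hdegP2⟩
    · rw [mem_biUnion]
      refine ⟨P, mem_Mon.2 ⟨hPm, rfl⟩, ?_⟩
      rw [mem_filter]
      exact ⟨hd1, ht⟩
  have h1 : (((ET n : Finset (Edge m → K[X])).filter fun d => ¬ Squarefree (∏ s, d s)).card : ℝ) ≤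
      ∑ a ∈ I, ∑ P ∈ Mon K a.2,
        (((ET n : Finset (Edge m → K[X])).filter fun d => ∀ s, P ^ x a.1 s ∣ d s).card : ℝ) := by
    have h2 := (card_le_card hsub).trans (card_biUnion_le.trans (sum_le_sum fun a _ => card_biUnion_le))
    exact_mod_cast h2
  refine h1.trans ?_
  have h3 : ∀ a ∈ I, ∑ P ∈ Mon K a.2,
        (((ET n : Finset (Edge m → K[X])).filter fun d => ∀ s, P ^ x a.1 s ∣ d s).card : ℝ) ≤
      (Fintype.card K : ℝ) ^ N / Fintype.card K := by
    intro a ha
    have ha1 : 1 ≤ a.2 := by
      rw [hI, mem_product, mem_Icc] at ha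
      exact ha.2.1
    have h4 : ∀ P ∈ Mon K a.2,
        (((ET n : Finset (Edge m → K[X])).filter fun d => ∀ s, P ^ x a.1 s ∣ d s).card : ℝ) ≤
        (Fintype.card K : ℝ) ^ N / (Fintype.card K : ℝ) ^ (2 * a.2) := by
      intro P hP
      rw [mem_Mon] at hP
      have h5 := card_ET_dvd n (fun s => P ^ x a.1 s) (fun s => hP.1.pow _)
      have h6 : ∑ s, (P ^ x a.1 s).natDegree = 2 * a.2 := by
        rw [sum_congr rfl fun s _ => natDegree_pow P (x a.1 s), ← sum_mul, hxsum, hP.2]
      rw [h6] at h5
      exact h5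
    refine (sum_le_sum h4).trans ?_
    rw [sum_const, card_Mon, nsmul_eq_mul]
    push_cast
    rw [two_mul, pow_add, ← div_div, ← mul_div_assoc, ← mul_div_assoc, mul_comm ((Fintype.card K : ℝ) ^ a.2),
      mul_div_assoc, div_self (by positivity), mul_one]
    refine div_le_div_of_nonneg_left (by positivity) hq0 ?_
    calc (Fintype.card K : ℝ) = (Fintype.card K : ℝ) ^ 1 := (pow_one _).symm
      _ ≤ _ := pow_le_pow_right₀ hq1 ha1
  refine (sum_le_sum h3).trans ?_
  rw [sum_const, nsmul_eq_mul]
  refine mul_le_mul_of_nonneg_right (le_of_eq ?_) (by positivity)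
  rw [hI, card_product, card_univ, Fintype.card_prod, Nat.card_Icc]
  push_cast
  ring

end

end Q282.HL
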