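import Pool.Agent.Q282.HL.Sq

/-!
# Tuples of monic polynomials whose product is a square
-/

set_option autoImplicit false
set_option linter.unusedSectionVars false

namespace Q282.HL

open Polynomial Finset
open Pool.Agent.H341R2.Sharp

/-- unordered pairs of vertices, loops included -/
abbrev Edge (m : ℕ) : Type := {s : Fin m × Fin m // s.1 ≤ s.2}

/-- how often the vertex `j` occurs in the edge `s` -/
def mult {m : ℕ} (j : Fin m) (s : Edge m) : ℕ :=
  (if s.1.1 = j then 1 else 0) + if s.1.2 = j then 1 else 0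

/-- the edge between two vertices -/
def edge {m : ℕ} (j k : Fin m) : Edge m := ⟨(min j k, max j k), min_le_max⟩

lemma mult_edge {m : ℕ} (j k l : Fin m) :
    mult l (edge j k) = (if j = l then 1 else 0) + if k = l then 1 else 0 := by
  unfold mult edge
  rcases le_total j k with h | h
  · simp only [min_eq_left h, max_eq_right h]
  · simp only [min_eq_right h, max_eq_left h]
    rw [add_comm]

lemma sum_mult {m : ℕ} (s : Edge m) : ∑ j, mult j s = 2 := by
  unfold mult
  rw [sum_add_distrib]
  simp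

lemma mult_pos {m : ℕ} {j : Fin m} {s : Edge m} : 0 < mult j s ↔ s.1.1 = j ∨ s.1.2 = j := by
  unfold mult
  by_cases h1 : s.1.1 = j
  · simp [h1]
  · by_cases h2 : s.1.2 = j
    · simp [h2]
    · simp [h1, h2]

lemma mult_inj {m : ℕ} {s t : Edge m} (h : ∀ j, mult j s = mult j t) : s = t := by
  have hs : s.1.1 ≤ s.1.2 := s.2
  have ht : t.1.1 ≤ t.1.2 := t.2
  have h1 : t.1.1 = s.1.1 ∨ t.1.2 = s.1.1 := by
    rw [← mult_pos, ← h, mult_pos]
    exact Or.inl rfl
  have h2 : t.1.1 = s.1.2 ∨ t.1.2 = s.1.2 := by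
    rw [← mult_pos, ← h, mult_pos]
    exact Or.inr rfl
  have h3 : s.1.1 = t.1.1 ∨ s.1.2 = t.1.1 := by
    rw [← mult_pos, h, mult_pos]
    exact Or.inl rfl
  have h4 : s.1.1 = t.1.2 ∨ s.1.2 = t.1.2 := by
    rw [← mult_pos, h, mult_pos]
    exact Or.inr rfl
  have h5 : s.1.1 = t.1.1 := by
    rcases h3 with h3 | h3
    · exact h3
    · refine le_antisymm (h3 ▸ hs) ?_
      rcases h1 with h1 | h1
      · exact h1.le
      · rw [← h1]
        exact ht
  have h6 : s.1.2 = t.1.2 := by
    rcases h4 with h4 | h4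
    · refine le_antisymm ?_ (h4 ▸ hs)
      rcases h2 with h2 | h2
      · rw [← h2]
        exact ht
      · exact h2.ge
    · exact h4
  exact Subtype.ext (Prod.ext h5 h6)

end Q282.HL
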