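import Pool.Agent.Q282.HL.Edge

/-!
# Factorisation of tuples whose product is a square
-/

set_option autoImplicit false
set_option linter.unusedSectionVars false

namespace Q282.HL

open Polynomial Finset

section

variable {K : Type} [Field K] {m : ℕ}

/-- the tuple attached to polynomials on the edges -/
noncomputable def Phi (d : Edge m → K[X]) (j : Fin m) : K[X] := ∏ s, d s ^ mult j s

lemma prod_Phi (d : Edge m → K[X]) : ∏ j, Phi d j = (∏ s, d s) ^ 2 := by
  unfold Phi
  rw [prod_comm, ← prod_pow]
  refine prod_congr rfl fun s _ => ?_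
  rw [prod_pow_eq_pow_sum, sum_mult]

lemma Phi_monic {d : Edge m → K[X]} (hd : ∀ s, (d s).Monic) (j : Fin m) : (Phi d j).Monic :=
  monic_prod_of_monic _ _ fun s _ => (hd s).pow _

lemma Phi_natDegree {d : Edge m → K[X]} (hd : ∀ s, (d s).Monic) (j : Fin m) :
    (Phi d j).natDegree = ∑ s, (d s).natDegree * mult j s := by
  unfold Phi
  rw [natDegree_prod_of_monic _ _ fun s _ => (hd s).pow _]
  refine sum_congr rfl fun s _ => ?_
  rw [natDegree_pow, mul_comm]

lemma Phi_mul_edge (d : Edge m → K[X]) (t : Edge m) (P : K[X]) (j : Fin m) :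
    Phi (fun s => if s = t then P * d s else d s) j = P ^ mult j t * Phi d j := by
  classical
  unfold Phi
  have h1 : ∀ s, (if s = t then P * d s else d s) ^ mult j s =
      (if s = t then P ^ mult j s else 1) * d s ^ mult j s := by
    intro s
    split_ifs
    · rw [mul_pow]
    · rw [one_mul]
  rw [prod_congr rfl fun s _ => h1 s, prod_mul_distrib, prod_ite_eq']
  simp

theorem exists_edge (N : ℕ) : ∀ h : Fin m → K[X], (∀ j, (h j).Monic) → ∑ j, (h j).natDegree ≤ N →
    IsSquare (∏ j, h j) → ∃ d : Edge m → K[X], (∀ s, (d s).Monic) ∧ ∀ j, Phi d j = h j := by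
  classical
  induction N with
  | zero =>
    intro h hm hN _
    refine ⟨fun _ => 1, fun _ => monic_one, fun j => ?_⟩
    have h1 : (h j).natDegree = 0 := by
      have := single_le_sum (f := fun j => (h j).natDegree) (fun _ _ => Nat.zero_le _) (mem_univ j)
      omega
    rw [eq_one_of_monic_natDegree_zero (hm j) h1]
    simp [Phi]
  | succ N ih =>
    intro h hm hN hsq
    by_cases hall : ∀ j, (h j).natDegree = 0
    · refine ⟨fun _ => 1, fun _ => monic_one, fun j => ?_⟩
      rw [eq_one_of_monic_natDegree_zero (hm j) (hall j)]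
      simp [Phi]
    push Not at hall
    obtain ⟨j, hj⟩ := hall
    obtain ⟨Q, hQirr, hQd⟩ := WfDvdMonoid.exists_irreducible_factor (a := h j)
      (fun hu => hj (natDegree_eq_zero_of_isUnit hu)) (hm j).ne_zero
    set P := normalize Q with hPdef
    have hPm : P.Monic := monic_normalize hQirr.ne_zero
    have hass : Associated P Q := normalize_associated Q
    have hPirr : Irreducible P := hass.symm.irreducible hQirr
    have hPp : Prime P := hPirr.prime
    have hPd : P ∣ h j := hass.dvd.trans hQd
    obtain ⟨G, hG⟩ := hsq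
    have hPG : P ∣ G := by
      have h1 : P ∣ ∏ j, h j := hPd.trans (dvd_prod_of_mem _ (mem_univ j))
      rw [hG] at h1
      rcases hPp.dvd_or_dvd h1 with h | h <;> exact h
    obtain ⟨G', hG'⟩ := hPG
    have hdegP : 1 ≤ P.natDegree := hPirr.natDegree_pos
    -- general step
    have step : ∀ (k : Fin m) (h' : Fin m → K[X]), (∀ l, h l = P ^ mult l (edge j k) * h' l) →
        ∃ d : Edge m → K[X], (∀ s, (d s).Monic) ∧ ∀ l, Phi d l = h l := by
      intro k h' hh'
      have hm' : ∀ l, (h' l).Monic := by
        intro l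
        have h1 := hm l
        rw [hh' l] at h1
        exact (hPm.pow _).of_mul_monic_left h1
      have hprod : ∏ l, h l = P ^ 2 * ∏ l, h' l := by
        rw [prod_congr rfl fun l _ => hh' l, prod_mul_distrib, prod_pow_eq_pow_sum, sum_mult]
      have hsq' : IsSquare (∏ l, h' l) := by
        refine ⟨G', ?_⟩
        have h1 : P ^ 2 * ∏ l, h' l = P ^ 2 * (G' * G') := by
          rw [← hprod, hG, hG']
          ring
        exact mul_left_cancel₀ (pow_ne_zero 2 hPm.ne_zero) h1
      have hdeg : ∑ l, (h l).natDegree = 2 * P.natDegree + ∑ l, (h' l).natDegree := by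
        have h1 : ∀ l, (h l).natDegree = mult l (edge j k) * P.natDegree + (h' l).natDegree := by
          intro l
          rw [hh' l, (hPm.pow _).natDegree_mul (hm' l), natDegree_pow]
        rw [sum_congr rfl fun l _ => h1 l, sum_add_distrib, ← sum_mul, sum_mult]
      obtain ⟨d, hd1, hd2⟩ := ih h' hm' (by omega) hsq'
      refine ⟨fun s => if s = edge j k then P * d s else d s, fun s => ?_, fun l => ?_⟩
      · beta_reduce
        split_ifs
        · exact hPm.mul (hd1 s)
        · exact hd1 s
      · rw [Phi_mul_edge, hd2, ← hh' l]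
    by_cases hex : ∃ k, k ≠ j ∧ P ∣ h k
    · obtain ⟨k, hkj, hPk⟩ := hex
      obtain ⟨a, ha⟩ := hPd
      obtain ⟨b, hb⟩ := hPk
      refine step k (fun l => if l = j then a else if l = k then b else h l) fun l => ?_
      rw [mult_edge]
      by_cases h1 : l = j
      · subst h1
        rw [if_pos rfl, if_neg hkj, if_pos rfl, ha]
        ring
      · rw [if_neg (Ne.symm h1), if_neg h1]
        by_cases h2 : l = k
        · subst h2
          rw [if_pos rfl, if_pos rfl, hb]
          ring
        · rw [if_neg (Ne.symm h2), if_neg h2]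
          ring
    · push Not at hex
      have h2 : P ^ 2 ∣ h j := by
        have h3 : P ^ 2 ∣ h j * ∏ k ∈ univ.erase j, h k := by
          rw [mul_prod_erase _ _ (mem_univ j), hG, hG']
          exact ⟨G' * G', by ring⟩
        refine (IsCoprime.dvd_of_dvd_mul_right ?_ h3)
        refine IsCoprime.pow_left ?_
        refine (hPirr.coprime_iff_not_dvd).2 ?_
        intro hd
        obtain ⟨k, hk, hPk⟩ := (hPp.dvd_finsetProd_iff _).1 hd
        exact hex k (ne_of_mem_erase hk) hPk
      obtain ⟨a, ha⟩ := h2
      refine step j (fun l => if l = j then a else h l) fun l => ?_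
      rw [mult_edge]
      by_cases h1 : l = j
      · subst h1
        rw [if_pos rfl, if_pos rfl, ha]
      · rw [if_neg (Ne.symm h1), if_neg h1]
        ring

/-- the factorisation is unique if the product of the polynomials on the edges is squarefree -/
theorem Phi_inj {d d' : Edge m → K[X]} (hd : ∀ s, (d s).Monic) (hd' : ∀ s, (d' s).Monic)
    (hsf : Squarefree (∏ s, d s)) (h : ∀ j, Phi d j = Phi d' j) : d = d' := by
  classical
  have hprod : ∏ s, d s = ∏ s, d' s := by
    have h1 : (∏ s, d s) ^ 2 = (∏ s, d' s) ^ 2 := by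
      rw [← prod_Phi, ← prod_Phi]
      exact prod_congr rfl fun j _ => h j
    have hm1 : (∏ s, d s).Monic := monic_prod_of_monic _ _ fun s _ => hd s
    have hm2 : (∏ s, d' s).Monic := monic_prod_of_monic _ _ fun s _ => hd' s
    rcases sq_eq_sq_iff_eq_or_eq_neg.1 h1 with h2 | h2
    · exact h2
    · have h3 := congrArg Polynomial.leadingCoeff h2
      rw [leadingCoeff_neg, hm1, hm2] at h3
      have h4 : (2 : K) = 0 := by linear_combination h3
      have h5 : ∏ s, d' s = - ∏ s, d' s := by
        have h6 : (2 : K[X]) = 0 := by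
          rw [← map_ofNat C 2, h4, C_0]
        linear_combination (∏ s, d' s) * h6
      rw [h2, ← h5]
  -- exponent of a prime
  have hval : ∀ (e : Edge m → K[X]) (s : Edge m) (P : K[X]), Prime P → Squarefree (∏ s, e s) →
      P ∣ e s → ∀ j, emultiplicity P (Phi e j) = mult j s := by
    intro e s P hP hsq hPs j
    have hother : ∀ t, t ≠ s → ¬ P ∣ e t := by
      intro t hts hPt
      have h1 : P * P ∣ ∏ s, e s := by
        rw [← mul_prod_erase _ _ (mem_univ s), ← mul_prod_erase _ _ (mem_erase.2 ⟨hts, mem_univ t⟩)]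
        rw [← mul_assoc]
        exact (mul_dvd_mul hPs hPt).mul_right _
      exact hP.not_isUnit (hsq P h1)
    have hone : emultiplicity P (e s) = 1 := by
      have h1 : ¬ P ^ 2 ∣ e s := by
        intro h2
        refine hP.not_isUnit (hsq P ?_)
        rw [← sq]
        exact h2.trans (dvd_prod_of_mem _ (mem_univ s))
      have h2 := emultiplicity_eq_coe (n := 1) (a := P) (b := e s)
      rw [h2.2 ⟨by rwa [pow_one], h1⟩]
      rfl
    unfold Phi
    rw [Finset.emultiplicity_prod hP, sum_eq_single s]
    · rw [emultiplicity_pow hP, hone, mul_one]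
    · intro t _ hts
      rw [emultiplicity_pow hP, emultiplicity_eq_zero.2 (hother t hts), mul_zero]
    · intro hs
      exact absurd (mem_univ s) hs
  have hsf' : Squarefree (∏ s, d' s) := hprod ▸ hsf
  have hdvd : ∀ s, d s ∣ d' s := by
    intro s
    have hsqs : Squarefree (d s) := hsf.squarefree_of_dvd (dvd_prod_of_mem _ (mem_univ s))
    rw [UniqueFactorizationMonoid.dvd_iff_normalizedFactors_le_normalizedFactors (hd s).ne_zero
      (hd' s).ne_zero, Multiset.le_iff_subset
      ((UniqueFactorizationMonoid.squarefree_iff_nodup_normalizedFactors (hd s).ne_zero).1 hsqs)]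
    intro P hP
    have hPm := (Polynomial.mem_normalizedFactors_iff (hd s).ne_zero).1 hP
    have hPp : Prime P := hPm.1.prime
    have hPall : P ∣ ∏ s, d' s := by
      rw [← hprod]
      exact hPm.2.2.trans (dvd_prod_of_mem _ (mem_univ s))
    obtain ⟨t, _, ht⟩ := (hPp.dvd_finsetProd_iff _).1 hPall
    have h1 : ∀ j, mult j s = mult j t := by
      intro j
      have h2 := hval d s P hPp hsf hPm.2.2 j
      have h3 := hval d' t P hPp hsf' ht j
      rw [h j, h3] at h2
      exact_mod_cast h2.symm
    have h4 : s = t := mult_inj h1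
    rw [Polynomial.mem_normalizedFactors_iff (hd' s).ne_zero]
    exact ⟨hPm.1, hPm.2.1, h4 ▸ ht⟩
  have hdeg : ∀ s, (d s).natDegree ≤ (d' s).natDegree := fun s =>
    natDegree_le_of_dvd (hdvd s) (hd' s).ne_zero
  have hsum : ∑ s, (d s).natDegree = ∑ s, (d' s).natDegree := by
    rw [← natDegree_prod_of_monic _ _ fun s _ => hd s, ← natDegree_prod_of_monic _ _ fun s _ => hd' s,
      hprod]
  funext s
  have heq : (d s).natDegree = (d' s).natDegree :=
    (sum_eq_sum_iff_of_le fun s _ => hdeg s).1 hsum s (mem_univ s)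
  exact (eq_of_monic_of_dvd_of_natDegree_le (hd s) (hd' s) (hdvd s) heq.ge).symm

end

end Q282.HL
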