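import Pool.Agent.Y57.FD.HypM

/-!
# The mean of the quadratic residue symbol over random monic polynomials
-/

set_option autoImplicit false
set_option linter.unusedSectionVars false
set_option maxHeartbeats 1000000

namespace Q282.HL

open Polynomial Finset
open Pool.Agent.H341R2.Sharp
open Pool.Agent.Y57.FD.Mom (mean_hom)

section

variable {K : Type} [Field K] [Fintype K] [DecidableEq K]

/-- the polynomial of degree less than `D` with the coefficients `u` -/
noncomputable def low (D : ℕ) (u : Fin D → K) : K[X] := ∑ i, C (u i) * X ^ (i : ℕ)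

/-- the monic polynomial of degree `D` with the coefficients `u` -/
noncomputable def mpol (D : ℕ) (u : Fin D → K) : K[X] := X ^ D + low D u

lemma low_degree (D : ℕ) (u : Fin D → K) : (low D u).degree < D := Polynomial.degree_sum_fin_lt u

lemma mpol_monic (D : ℕ) (u : Fin D → K) : (mpol D u).Monic :=
  Polynomial.monic_X_pow_add (low_degree D u)

lemma mpol_natDegree (D : ℕ) (u : Fin D → K) : (mpol D u).natDegree = D := by
  apply Polynomial.natDegree_eq_of_degree_eq_some
  unfold mpol
  rw [Polynomial.degree_add_eq_left_of_degree_lt, Polynomial.degree_X_pow]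
  rw [Polynomial.degree_X_pow]
  exact low_degree D u

lemma exists_low {D : ℕ} {G : K[X]} (hG : G.degree < D) : ∃ u : Fin D → K, low D u = G := by
  refine ⟨fun i => G.coeff i, ?_⟩
  unfold low
  rcases Nat.eq_zero_or_pos D with h0 | h0
  · subst h0
    simp at hG
    simp [hG]
  · have h1 : G.natDegree < D := by
      rcases eq_or_ne G 0 with h | h
      · rw [h, natDegree_zero]
        exact h0
      · exact (natDegree_lt_iff_degree_lt h).2 hG
    conv_rhs => rw [G.as_sum_range_C_mul_X_pow' h1]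
    rw [Fin.sum_univ_eq_sum_range (fun i => C (G.coeff i) * X ^ i) D]

lemma low_zero (D : ℕ) : low D (0 : Fin D → K) = 0 := by
  unfold low
  simp

lemma low_add (D : ℕ) (u v : Fin D → K) : low D (u + v) = low D u + low D v := by
  unfold low
  simp only [Pi.add_apply, C_add, add_mul, sum_add_distrib]

end

section Abs

variable {K : Type} [Field K] [Fintype K] [DecidableEq K]

/-- means of products over a product of groups -/
theorem mean_pi {ι : Type} [Fintype ι] [DecidableEq ι] (E : ι → Type) [∀ i, Field (E i)] [∀ i, Fintype (E i)]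
    (D : ℕ) (φ : (Fin D → K) →+ (∀ i, E i)) (hφ : Function.Surjective φ) (c : ∀ i, E i)
    (G : ∀ i, E i → ℝ) :
    (∑ u : Fin D → K, ∏ i, G i (c i + φ u i)) / (Fintype.card K : ℝ) ^ D =
      ∏ i, ((∑ z : E i, G i z) / (Fintype.card (E i) : ℝ)) := by
  classical
  have h2 := mean_hom φ hφ (fun y => ∏ i, G i (c i + y i))
  rw [Fintype.card_pi_const, Fintype.card_pi] at h2
  have h3 : ∑ y : (∀ i, E i), ∏ i, G i (c i + y i) = ∏ i, ∑ z : E i, G i z := by
    have h4 : ∀ i, ∑ z : E i, G i z = ∑ z : E i, G i (c i + z) := by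
      intro i
      exact (Equiv.sum_comp (Equiv.addLeft (c i)) (fun z => G i z)).symm
    rw [prod_congr rfl fun i _ => h4 i, Fintype.prod_sum]
  push_cast at h2
  rw [h2, h3, ← prod_div_distrib]

/-- the low part as a homomorphism -/
noncomputable def lowHom (D : ℕ) : (Fin D → K) →+ K[X] where
  toFun u := low D u
  map_zero' := low_zero D
  map_add' u v := low_add D u v

variable {ι : Type} [Fintype ι] [DecidableEq ι] (E : ι → Type) [∀ i, Field (E i)]

/-- reduction of the low part modulo finitely many polynomials -/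
noncomputable def red (D : ℕ) (ψ : ∀ i, K[X] →+* E i) : (Fin D → K) →+ (∀ i, E i) :=
  AddMonoidHom.pi fun i => ((ψ i : K[X] →+ E i).comp (lowHom D))

lemma red_apply (D : ℕ) (ψ : ∀ i, K[X] →+* E i) (u : Fin D → K) (i : ι) :
    red E D ψ u i = ψ i (low D u) := rfl

lemma red_surj (D : ℕ) (ψ : ∀ i, K[X] →+* E i) (hψ : ∀ i, Function.Surjective (ψ i)) (P : ι → K[X])
    (hP : ∀ i, (P i).Monic ∧ Irreducible (P i)) (hinj : Function.Injective P)
    (hker : ∀ i g, P i ∣ g → ψ i g = 0)
    (hD : ∑ i, (P i).natDegree ≤ D) : Function.Surjective (red E D ψ) := by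
  classical
  intro y
  have hcop : Pairwise fun i j => IsCoprime (Ideal.span {P i}) (Ideal.span {P j}) := by
    intro i j hij
    rw [Ideal.isCoprime_span_singleton_iff]
    refine ((hP i).2.coprime_iff_not_dvd).2 ?_
    intro hdvd
    have h1 := ((hP i).2.dvd_irreducible_iff_associated (hP j).2).1 hdvd
    exact hij (hinj (eq_of_monic_of_associated (hP i).1 (hP j).1 h1))
  choose x hx using fun i => hψ i (y i)
  obtain ⟨G, hG⟩ := Ideal.exists_forall_sub_mem_ideal hcop x
  set PP : K[X] := ∏ i, P i with hPP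
  have hmon : PP.Monic := monic_prod_of_monic _ _ fun i _ => (hP i).1
  have hdeg : PP.natDegree ≤ D := by
    rw [hPP, natDegree_prod_of_monic _ _ fun i _ => (hP i).1]
    exact hD
  have h1 : (G %ₘ PP).degree < D := by
    refine (degree_modByMonic_lt _ hmon).trans_le ?_
    rw [degree_eq_natDegree hmon.ne_zero]
    exact_mod_cast hdeg
  obtain ⟨u, hu⟩ := exists_low h1
  refine ⟨u, ?_⟩
  funext i
  rw [red_apply, hu, ← hx i]
  have h2 : P i ∣ G - x i := Ideal.mem_span_singleton.1 (hG i)
  have h3 : P i ∣ G %ₘ PP - G := by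
    have h4 : P i ∣ PP := dvd_prod_of_mem _ (mem_univ i)
    have h5 : G %ₘ PP - G = PP * (-(G /ₘ PP)) := by
      have := modByMonic_add_div G PP
      linear_combination this
    rw [h5]
    exact h4.mul_right _
  have h6 : G %ₘ PP - x i = (G %ₘ PP - G) + (G - x i) := by ring
  have h7 : ψ i (G %ₘ PP - x i) = 0 := hker i _ (by rw [h6]; exact dvd_add h3 h2)
  rw [map_sub] at h7
  exact sub_eq_zero.1 h7

/-- the local factor of the mean -/
noncomputable def ee (q d v : ℕ) : ℝ := if v = 0 then 1 else if Even v then 1 - 1 / (q : ℝ) ^ d else 0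

variable [∀ i, Fintype (E i)] [∀ i, DecidableEq (E i)]

theorem mean_abs (D : ℕ) (ψ : ∀ i, K[X] →+* E i) (hψ : ∀ i, Function.Surjective (ψ i)) (P : ι → K[X])
    (hP : ∀ i, (P i).Monic ∧ Irreducible (P i)) (hinj : Function.Injective P)
    (hker : ∀ i g, P i ∣ g → ψ i g = 0)
    (hD : ∑ i, (P i).natDegree ≤ D) (hE : ∀ i, ringChar (E i) ≠ 2)
    (hc : ∀ i, Fintype.card (E i) = Fintype.card K ^ (P i).natDegree) (v : ι → ℕ) :
    (∑ u : Fin D → K, ∏ i, (quadraticChar (E i) (ψ i (mpol D u)) : ℝ) ^ v i) / (Fintype.card K : ℝ) ^ D =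
      ∏ i, ee (Fintype.card K) (P i).natDegree (v i) := by
  have h0 := mean_pi E D (red E D ψ) (red_surj E D ψ hψ P hP hinj hker hD)
    (fun i => ψ i (X ^ D)) (fun i z => (quadraticChar (E i) z : ℝ) ^ v i)
  have h1 : ∀ u : Fin D → K, ∏ i, (quadraticChar (E i) (ψ i (mpol D u)) : ℝ) ^ v i =
      ∏ i, (quadraticChar (E i) (ψ i (X ^ D) + red E D ψ u i) : ℝ) ^ v i := by
    intro u
    refine prod_congr rfl fun i _ => ?_
    rw [red_apply, mpol, map_add]
  rw [sum_congr rfl fun u _ => h1 u]
  refine h0.trans (prod_congr rfl fun i _ => ?_)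
  show Pool.Agent.Y57.FD.Mom.e (E i) (v i) = _
  unfold ee
  split_ifs with h1 h2
  · rw [h1, Pool.Agent.Y57.FD.Mom.e_zero]
  · rw [Pool.Agent.Y57.FD.Mom.e_even (E i) (v i) h2 h1, hc i]
    push_cast
    rfl
  · exact Pool.Agent.Y57.FD.Mom.e_odd (E i) (hE i) (v i) (Nat.not_even_iff_odd.1 h2)

end Abs

section Mean

variable {K : Type} [Field K] [Fintype K] [DecidableEq K]

lemma finite_adj {P : K[X]} (hP : P.Monic) : Finite (AdjoinRoot P) := by
  have : Module.Finite K (AdjoinRoot P) := hP.finite_adjoinRoot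
  exact Module.finite_of_finite K

lemma card_adj {P : K[X]} (hP : P.Monic) [Fintype (AdjoinRoot P)] :
    Fintype.card (AdjoinRoot P) = Fintype.card K ^ P.natDegree := by
  have : Module.Finite K (AdjoinRoot P) := hP.finite_adjoinRoot
  rw [Module.card_eq_pow_finrank (K := K) (V := AdjoinRoot P)]
  congr 1
  exact finrank_quotient_span_eq_natDegree

/-- a residue field -/
theorem exists_field (hK : ringChar K ≠ 2) {P : K[X]} (hP : P.Monic) (hirr : Irreducible P) :
    ∃ (E : Type) (_ : Field E) (_ : Fintype E) (_ : DecidableEq E) (ψ : K[X] →+* E),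
      Function.Surjective ψ ∧ (∀ g, P ∣ g → ψ g = 0) ∧ ringChar E ≠ 2 ∧
      Fintype.card E = Fintype.card K ^ P.natDegree ∧
      ∀ f : K[X], lam f P = quadraticChar E (ψ f) := by
  classical
  have : Fact (Irreducible P) := ⟨hirr⟩
  let i2 : Fintype (AdjoinRoot P) := @Fintype.ofFinite _ (finite_adj hP)
  refine ⟨AdjoinRoot P, inferInstance, i2, Classical.decEq _, AdjoinRoot.mk P,
    AdjoinRoot.mk_surjective, fun g hg => AdjoinRoot.mk_eq_zero.2 hg, ?_, card_adj hP, fun f => ?_⟩
  · rwa [← Algebra.ringChar_eq K (AdjoinRoot P)]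
  · have h0 : P ≠ 0 := hP.ne_zero
    have h1 := qc_aeval (E := AdjoinRoot P) hK f (AdjoinRoot.root P)
    have h2 : minpoly K (AdjoinRoot.root P) = P := by
      rw [AdjoinRoot.minpoly_root h0, hP.leadingCoeff, inv_one, C_1, mul_one]
    have h3 : Module.finrank K (AdjoinRoot P) = P.natDegree := finrank_quotient_span_eq_natDegree
    have h4 : 0 < P.natDegree := (Fact.out : Irreducible P).natDegree_pos
    rw [h2, h3, Nat.div_self h4, pow_one, AdjoinRoot.aeval_eq] at h1
    exact h1.symm

lemma lam_prod (f : K[X]) (S : Finset K[X]) (hS : ∀ P ∈ S, P.Monic) (v : K[X] → ℕ) :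
    lam f (∏ P ∈ S, P ^ v P) = ∏ P ∈ S, lam f P ^ v P := by
  classical
  induction S using Finset.induction_on with
  | empty => simp [lam_one]
  | insert P S hP ih =>
    rw [prod_insert hP, prod_insert hP, lam_mul _ _ _ ((hS P (mem_insert_self _ _)).pow _)
      (monic_prod_of_monic _ _ fun Q hQ => (hS Q (mem_insert_of_mem hQ)).pow _),
      lam_pow _ _ (hS P (mem_insert_self _ _)), ih fun Q hQ => hS Q (mem_insert_of_mem hQ)]

/-- the mean of the residue symbol, in terms of the factorisation -/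
theorem mean_lam_prod (hK : ringChar K ≠ 2) (D : ℕ) (S : Finset K[X])
    (hS : ∀ P ∈ S, P.Monic ∧ Irreducible P) (hD : ∑ P ∈ S, P.natDegree ≤ D) (v : K[X] → ℕ) :
    (∑ u : Fin D → K, (lam (mpol D u) (∏ P ∈ S, P ^ v P) : ℝ)) / (Fintype.card K : ℝ) ^ D =
      ∏ P ∈ S, ee (Fintype.card K) P.natDegree (v P) := by
  classical
  choose E i1 i2 i3 ψ h1 h2 h3 h4 h5 using fun P : S =>
    exists_field hK (hS P P.2).1 (hS P P.2).2
  have h0 := mean_abs E D ψ h1 (fun P : S => (P : K[X])) (fun P => hS P P.2) Subtype.val_injective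
    h2 (by rw [Finset.sum_coe_sort S (fun P => P.natDegree)]; exact hD) h3 h4 (fun P => v P)
  have h6 : ∀ u : Fin D → K, (lam (mpol D u) (∏ P ∈ S, P ^ v P) : ℝ) =
      ∏ P : S, (quadraticChar (E P) (ψ P (mpol D u)) : ℝ) ^ v P := by
    intro u
    rw [lam_prod _ _ fun P hP => (hS P hP).1]
    push_cast
    rw [← Finset.prod_coe_sort S (fun P => (lam (mpol D u) P : ℝ) ^ v P)]
    exact prod_congr rfl fun P _ => by rw [h5]
  rw [sum_congr rfl fun u _ => h6 u]
  refine h0.trans ?_
  exact Finset.prod_coe_sort S (fun P => ee (Fintype.card K) P.natDegree (v P))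

end Mean

end Q282.HL
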