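import Pool.Agent.Q282.HL.Asym

/-!
# Multigraphs as symmetric matrices, bounds for the coefficients of the `L`-polynomial
-/

set_option autoImplicit false
set_option linter.unusedSectionVars false

namespace Q282.HL

open Polynomial Finset
open Pool.Agent.H341R2.Sharp

/-- the adjacency matrix of a multigraph, a loop contributes `2` -/
def toMat {m : ℕ} (n : Edge m → ℕ) : Matrix (Fin m) (Fin m) ℕ := fun j k => n (edge j k) * if j = k then 2 else 1

lemma edge_comm {m : ℕ} (j k : Fin m) : edge j k = edge k j := by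
  unfold edge
  simp only [min_comm, max_comm]

lemma edge_val {m : ℕ} (s : Edge m) : edge s.1.1 s.1.2 = s := by
  unfold edge
  apply Subtype.ext
  show (min s.1.1 s.1.2, max s.1.1 s.1.2) = s.1
  rw [min_eq_left s.2, max_eq_right s.2]

lemma edge_inj {m : ℕ} (j : Fin m) : Function.Injective (edge j) := by
  intro k l h
  have h1 : ∀ a, mult a (edge j k) = mult a (edge j l) := fun a => by rw [h]
  have h2 := h1 k
  rw [mult_edge, mult_edge] at h2
  by_contra hne
  rw [if_neg (Ne.symm hne)] at h2
  simp at h2

lemma row_sum {m : ℕ} (n : Edge m → ℕ) (j : Fin m) : ∑ k, toMat n j k = ∑ s, n s * mult j s := by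
  classical
  have h1 : ∀ k, toMat n j k = n (edge j k) * mult j (edge j k) := by
    intro k
    unfold toMat
    rw [mult_edge]
    by_cases h : j = k
    · subst h
      simp
    · rw [if_neg h, if_neg (Ne.symm h)]
      simp
  rw [sum_congr rfl fun k _ => h1 k, ← sum_image (s := univ) (g := edge j) (f := fun s => n s * mult j s)
    (fun a _ b _ h => edge_inj j h)]
  refine sum_subset (subset_univ _) ?_
  intro s _ hs
  have h2 : mult j s = 0 := by
    by_contra hne
    apply hs
    rw [mem_image]
    rcases mult_pos.1 (Nat.pos_of_ne_zero hne) with h | h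
    · exact ⟨s.1.2, mem_univ _, by rw [← h, edge_val]⟩
    · exact ⟨s.1.1, mem_univ _, by rw [edge_comm, ← h, edge_val]⟩
  rw [h2, mul_zero]

/-- the number of the symmetric matrices with entries in `ℕ`, even entries on the diagonal and row sums `i` -/
noncomputable def symm {m : ℕ} (i : Fin m → ℕ) : ℕ :=
  Nat.card {S : Matrix (Fin m) (Fin m) ℕ // (∀ j k, S j k = S k j) ∧ (∀ j, Even (S j j)) ∧ ∀ j, ∑ k, S j k = i j}

lemma toMat_edge {m : ℕ} (n : Edge m → ℕ) (s : Edge m) :
    toMat n s.1.1 s.1.2 = n s * if s.1.1 = s.1.2 then 2 else 1 := by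
  unfold toMat
  rw [edge_val]

theorem card_GR {m : ℕ} (i : Fin m → ℕ) : (GR i).card = symm i := by
  classical
  unfold symm
  rw [← Nat.card_eq_finsetCard (GR i)]
  refine Nat.card_congr (Equiv.ofBijective (fun n => ⟨toMat n.1, ?_, ?_, ?_⟩) ⟨?_, ?_⟩)
  · intro j k
    unfold toMat
    rw [edge_comm]
    by_cases h : j = k
    · rw [if_pos h, if_pos h.symm]
    · rw [if_neg h, if_neg (Ne.symm h)]
  · intro j
    unfold toMat
    rw [if_pos rfl]
    exact even_two.mul_left _
  · intro j
    rw [row_sum]
    exact mem_GR.1 n.2 j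
  · intro n n' h
    apply Subtype.ext
    funext s
    have h1 : toMat n.1 s.1.1 s.1.2 = toMat n'.1 s.1.1 s.1.2 := by
      have := congrArg (fun S => S.1 s.1.1 s.1.2) h
      exact this
    rw [toMat_edge, toMat_edge] at h1
    split_ifs at h1 <;> omega
  · rintro ⟨S, hS1, hS2, hS3⟩
    have hmat : toMat (fun s : Edge m => S s.1.1 s.1.2 / if s.1.1 = s.1.2 then 2 else 1) = S := by
      funext j k
      unfold toMat edge
      show S (min j k) (max j k) / (if min j k = max j k then 2 else 1) * (if j = k then 2 else 1) = S j k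
      rcases lt_trichotomy j k with h | h | h
      · rw [min_eq_left h.le, max_eq_right h.le, if_neg h.ne]
        simp
      · subst h
        rw [min_self, max_self, if_pos rfl]
        exact Nat.div_mul_cancel (hS2 j).two_dvd
      · rw [min_eq_right h.le, max_eq_left h.le, if_neg h.ne, if_neg h.ne', hS1 k j]
        simp
    refine ⟨⟨fun s => S s.1.1 s.1.2 / if s.1.1 = s.1.2 then 2 else 1, ?_⟩, ?_⟩
    · rw [mem_GR]
      intro j
      rw [← row_sum, hmat]
      exact hS3 j
    · exact Subtype.ext hmat

section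

variable {K : Type} [Field K] [Fintype K] [DecidableEq K]

/-- bound for the coefficients -/
theorem A_bound (hK : ringChar K ≠ 2) {g : ℕ} {f : K[X]} (hf : f.Monic) (hd : f.natDegree = 2 * g + 1) (n : ℕ) :
    |(A f n : ℝ)| ≤ ((5 * (2 * g + 1) : ℝ)) ^ n * (Real.sqrt (Fintype.card K)) ^ n := by
  have hns : ∀ (c : K) (h : K[X]), f ≠ C c * h ^ 2 := by
    intro c h hc
    have h3 : f ≠ 0 := hf.ne_zero
    have hc0 : c ≠ 0 := by
      rintro rfl
      rw [C_0, zero_mul] at hc
      exact h3 hc
    rw [hc, natDegree_C_mul hc0, natDegree_pow] at hd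
    omega
  have hq : 0 ≤ Real.sqrt (Fintype.card K) := Real.sqrt_nonneg _
  obtain ⟨a, ha⟩ : ∃ a : ℝ, a = 5 * (2 * g + 1) := ⟨_, rfl⟩
  have ha1 : 1 ≤ a := by
    rw [ha]
    have : (0 : ℝ) ≤ g := Nat.cast_nonneg g
    linarith
  rw [← ha]
  induction n using Nat.strong_induction_on with
  | _ n ih =>
    rcases Nat.eq_zero_or_pos n with h0 | h0
    · subst h0
      rw [A_zero]
      simp
    · have h1 := n_mul_A f n
      have h2 : (n : ℝ) * A f n = ∑ m ∈ Icc 1 n, (A f (n - m) : ℝ) * T f m := by exact_mod_cast h1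
      have hn : (0 : ℝ) < n := by exact_mod_cast h0
      have h3 : (n : ℝ) * |(A f n : ℝ)| ≤ n * (a ^ n * (Real.sqrt (Fintype.card K)) ^ n) := by
        have e : (n : ℝ) * |(A f n : ℝ)| = |(n : ℝ) * A f n| := by
          rw [abs_mul, abs_of_pos hn]
        rw [e, h2]
        refine (abs_sum_le_sum_abs _ _).trans ?_
        have h4 : ∀ m ∈ Icc 1 n, |(A f (n - m) : ℝ) * T f m| ≤ a ^ n * (Real.sqrt (Fintype.card K)) ^ n := by
          intro m hm
          rw [mem_Icc] at hm
          have h5 := ih (n - m) (by omega)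
          have h6 := (T_bound hK hf (by omega) hns m hm.1).1
          rw [hd] at h6
          have h7 : |(T f m : ℝ)| ≤ a * (Real.sqrt (Fintype.card K)) ^ m := by
            refine h6.trans (le_of_eq ?_)
            rw [ha]
            push_cast
            ring
          rw [abs_mul]
          calc |(A f (n - m) : ℝ)| * |(T f m : ℝ)|
              ≤ (a ^ (n - m) * (Real.sqrt (Fintype.card K)) ^ (n - m)) * (a * (Real.sqrt (Fintype.card K)) ^ m) :=
                mul_le_mul h5 h7 (abs_nonneg _) (by positivity)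
            _ = (a ^ (n - m) * a) * ((Real.sqrt (Fintype.card K)) ^ (n - m) * (Real.sqrt (Fintype.card K)) ^ m) := by ring
            _ = a ^ (n - m + 1) * (Real.sqrt (Fintype.card K)) ^ n := by
                rw [← pow_add, Nat.sub_add_cancel hm.2, pow_succ]
            _ ≤ a ^ n * (Real.sqrt (Fintype.card K)) ^ n := by
                refine mul_le_mul_of_nonneg_right (pow_le_pow_right₀ ha1 (by omega)) (by positivity)
        refine (sum_le_sum h4).trans (le_of_eq ?_)
        rw [sum_const, Nat.card_Icc, nsmul_eq_mul, Nat.add_sub_cancel]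
      exact le_of_mul_le_mul_left h3 hn

end

end Q282.HL
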