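import Pool.Agent.Q282.HL.Local

/-!
# The mean of the residue symbol modulo a square and modulo other polynomials
-/

set_option autoImplicit false
set_option linter.unusedSectionVars false

namespace Q282.HL

open Polynomial Finset
open Pool.Agent.H341R2.Sharp

section

variable {K : Type} [Field K] [Fintype K] [DecidableEq K]

open Classical in
/-- the factorisation of a monic polynomial -/
lemma factor {H : K[X]} (hH : H.Monic) : ∃ (S : Finset K[X]) (v : K[X] → ℕ),
    (∀ P ∈ S, P.Monic ∧ Irreducible P) ∧ (∀ P ∈ S, 1 ≤ v P) ∧ H = ∏ P ∈ S, P ^ v P := by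
  have h0 : H ≠ 0 := hH.ne_zero
  set nf := UniqueFactorizationMonoid.normalizedFactors H with hnf
  have hmon : ∀ P ∈ nf, P.Monic := by
    intro P hP
    exact ((Polynomial.mem_normalizedFactors_iff h0).1 hP).2.1
  have hirr : ∀ P ∈ nf, Irreducible P := fun P hP =>
    UniqueFactorizationMonoid.irreducible_of_normalized_factor P hP
  have hprod : nf.prod = H := by
    have := UniqueFactorizationMonoid.prod_normalizedFactors_eq h0
    rw [this, hH.normalize_eq_self]
  refine ⟨nf.toFinset, fun P => nf.count P, fun P hP => ?_, fun P hP => ?_, ?_⟩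
  · rw [Multiset.mem_toFinset] at hP
    exact ⟨hmon P hP, hirr P hP⟩
  · rw [Multiset.mem_toFinset] at hP
    exact Multiset.one_le_count_iff_mem.2 hP
  · rw [← hprod, Finset.prod_multiset_count]

lemma deg_le {S : Finset K[X]} {v : K[X] → ℕ} (hS : ∀ P ∈ S, P.Monic ∧ Irreducible P)
    (hv : ∀ P ∈ S, 1 ≤ v P) : ∑ P ∈ S, P.natDegree ≤ (∏ P ∈ S, P ^ v P).natDegree := by
  rw [natDegree_prod_of_monic _ _ fun P hP => ((hS P hP).1.pow _)]
  refine sum_le_sum fun P hP => ?_
  rw [natDegree_pow]
  exact Nat.le_mul_of_pos_left _ (hv P hP)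

/-- the mean of the residue symbol over the monic polynomials of degree `D` -/
noncomputable def ml (D : ℕ) (H : K[X]) : ℝ :=
  (∑ u : Fin D → K, (lam (mpol D u) H : ℝ)) / (Fintype.card K : ℝ) ^ D

theorem ml_nsq (hK : ringChar K ≠ 2) {D : ℕ} {H : K[X]} (hH : H.Monic) (hD : H.natDegree ≤ D)
    (hs : ¬ IsSquare H) : ml D H = 0 := by
  classical
  obtain ⟨S, v, hS, hv, rfl⟩ := factor hH
  unfold ml
  rw [mean_lam_prod hK D S hS ((deg_le hS hv).trans hD)]
  obtain ⟨P, hP, hodd⟩ : ∃ P ∈ S, ¬ Even (v P) := by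
    by_contra hcon
    push Not at hcon
    refine hs ⟨∏ P ∈ S, P ^ (v P / 2), ?_⟩
    rw [← prod_mul_distrib]
    refine prod_congr rfl fun P hP => ?_
    rw [← pow_add]
    congr 1
    obtain ⟨k, hk⟩ := hcon P hP
    omega
  refine prod_eq_zero hP ?_
  unfold ee
  have h1 := hv P hP
  rw [if_neg (by omega), if_neg hodd]

theorem ml_sq (hK : ringChar K ≠ 2) {D : ℕ} {H : K[X]} (hH : H.Monic) (hD : H.natDegree ≤ D)
    (hs : IsSquare H) : ml D H ≤ 1 ∧ 1 - (D : ℝ) / Fintype.card K ≤ ml D H := by
  classical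
  obtain ⟨S, v, hS, hv, hprod⟩ := factor hH
  have hq : (1 : ℝ) ≤ Fintype.card K := by exact_mod_cast Fintype.card_pos
  have hq0 : (0 : ℝ) < Fintype.card K := by linarith
  have heven : ∀ P ∈ S, Even (v P) := by
    intro P hP
    obtain ⟨G, hG⟩ := hs
    have hG0 : G ≠ 0 := by
      rintro rfl
      rw [mul_zero] at hG
      exact hH.ne_zero hG
    have h1 : emultiplicity P H = v P := by
      rw [hprod, ← mul_prod_erase S _ hP]
      have hnd : ¬ P ∣ ∏ Q ∈ S.erase P, Q ^ v Q := by
        intro hd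
        obtain ⟨Q, hQ, hPQ⟩ := ((hS P hP).2.prime.dvd_finsetProd_iff _).1 hd
        have h2 := (hS P hP).2.prime.dvd_of_dvd_pow hPQ
        have h3 := ((hS P hP).2.dvd_irreducible_iff_associated (hS Q (mem_of_mem_erase hQ)).2).1 h2
        exact (ne_of_mem_erase hQ) (eq_of_monic_of_associated (hS P hP).1
          (hS Q (mem_of_mem_erase hQ)).1 h3).symm
      have h4 : emultiplicity P (P ^ v P * ∏ Q ∈ S.erase P, Q ^ v Q) =
          emultiplicity P (P ^ v P) + emultiplicity P (∏ Q ∈ S.erase P, Q ^ v Q) :=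
        emultiplicity_mul (hS P hP).2.prime
      rw [h4, emultiplicity_eq_zero.2 hnd, add_zero,
        emultiplicity_pow_self_of_prime (hS P hP).2.prime]
    have h5 : emultiplicity P H = emultiplicity P G + emultiplicity P G := by
      rw [hG, emultiplicity_mul (hS P hP).2.prime]
    have hfin : FiniteMultiplicity P G := FiniteMultiplicity.of_prime_left (hS P hP).2.prime hG0
    rw [h1, hfin.emultiplicity_eq_multiplicity] at h5
    have h6 : v P = multiplicity P G + multiplicity P G := by exact_mod_cast h5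
    exact ⟨_, h6⟩
  have hSD : ∑ P ∈ S, P.natDegree ≤ D := by
    rw [hprod] at hD
    exact (deg_le hS hv).trans hD
  have hml : ml D H = ∏ P ∈ S, (1 - 1 / (Fintype.card K : ℝ) ^ P.natDegree) := by
    unfold ml
    rw [hprod, mean_lam_prod hK D S hS hSD]
    refine prod_congr rfl fun P hP => ?_
    unfold ee
    have := hv P hP
    rw [if_neg (by omega), if_pos (heven P hP)]
  have hterm : ∀ P ∈ S, 0 ≤ 1 / (Fintype.card K : ℝ) ^ P.natDegree ∧
      1 / (Fintype.card K : ℝ) ^ P.natDegree ≤ 1 / Fintype.card K := by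
    intro P hP
    have hd : 1 ≤ P.natDegree := (hS P hP).2.natDegree_pos
    refine ⟨by positivity, ?_⟩
    refine one_div_le_one_div_of_le hq0 ?_
    calc (Fintype.card K : ℝ) = (Fintype.card K : ℝ) ^ 1 := (pow_one _).symm
      _ ≤ _ := pow_le_pow_right₀ hq hd
  have h1q : 1 / (Fintype.card K : ℝ) ≤ 1 := by
    rw [div_le_one hq0]
    exact hq
  rw [hml]
  constructor
  · refine prod_le_one (fun P hP => ?_) fun P hP => ?_
    · have := (hterm P hP).2
      linarith
    · have := (hterm P hP).1
      linarith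
  · have h2 : 1 - ∑ P ∈ S, 1 / (Fintype.card K : ℝ) ^ P.natDegree ≤
        ∏ P ∈ S, (1 - 1 / (Fintype.card K : ℝ) ^ P.natDegree) := by
      clear hml hSD heven hprod
      induction S using Finset.induction_on with
      | empty => simp
      | insert P S hP ih =>
        rw [sum_insert hP, prod_insert hP]
        have hih := ih (fun Q hQ => hS Q (mem_insert_of_mem hQ)) (fun Q hQ => hv Q (mem_insert_of_mem hQ))
          (fun Q hQ => hterm Q (mem_insert_of_mem hQ))
        have ht := hterm P (mem_insert_self _ _)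
        have hle1 : ∏ Q ∈ S, (1 - 1 / (Fintype.card K : ℝ) ^ Q.natDegree) ≤ 1 := by
          refine prod_le_one (fun Q hQ => ?_) fun Q hQ => ?_
          · have := (hterm Q (mem_insert_of_mem hQ)).2
            linarith
          · have := (hterm Q (mem_insert_of_mem hQ)).1
            linarith
        nlinarith
    refine le_trans ?_ h2
    have h3 : ∑ P ∈ S, 1 / (Fintype.card K : ℝ) ^ P.natDegree ≤ ∑ _P ∈ S, 1 / (Fintype.card K : ℝ) :=
      sum_le_sum fun P hP => (hterm P hP).2
    have h4 : (S.card : ℝ) ≤ D := by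
      have : S.card ≤ ∑ P ∈ S, P.natDegree := by
        rw [card_eq_sum_ones]
        exact sum_le_sum fun P hP => (hS P hP).2.natDegree_pos
      exact_mod_cast this.trans hSD
    rw [sum_const, nsmul_eq_mul] at h3
    have h5 : (S.card : ℝ) * (1 / Fintype.card K) ≤ D / Fintype.card K := by
      rw [mul_one_div]
      exact div_le_div_of_nonneg_right h4 hq0.le
    linarith

end

end Q282.HL
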